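import Mathlib

/-!
Lines meeting many edges of a geometric graph (MP_62448f_co): statements of the tasks.
Everything is about points `p : Fin n → ℝ × ℝ` and lines `a x + b y = c` with `(a, b) ≠ 0`.
-/

open Finset

noncomputable section

namespace H162R2.LC

/-- value of the affine functional `a x + b y - c` at the point `z` -/
def aff (a b c : ℝ) (z : ℝ × ℝ) : ℝ := a * z.1 + b * z.2 - c

/-- the points are distinct and no line contains three of them -/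
def NoThree {n : ℕ} (p : Fin n → ℝ × ℝ) : Prop :=
  Function.Injective p ∧ ∀ a b c : ℝ, (a ≠ 0 ∨ b ≠ 0) →
    (univ.filter fun i => aff a b c (p i) = 0).card ≤ 2

/-- `(a,b,c)` is a line containing none of the points -/
def Avoids {n : ℕ} (p : Fin n → ℝ × ℝ) (a b c : ℝ) : Prop :=
  (a ≠ 0 ∨ b ≠ 0) ∧ ∀ i, aff a b c (p i) ≠ 0

open Classical in
/-- the edges of `G` whose end points lie on different (open) sides of the line -/
def sepE {n : ℕ} (p : Fin n → ℝ × ℝ) (G : SimpleGraph (Fin n)) (a b c : ℝ) :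
    Finset (Sym2 (Fin n)) :=
  univ.filter fun e => e ∈ G.edgeSet ∧
    ∃ u v, e = s(u, v) ∧ 0 < aff a b c (p u) ∧ aff a b c (p v) < 0

open Classical in
/-- the number of edges of `G` with both ends in `S` -/
def eIn {n : ℕ} (G : SimpleGraph (Fin n)) (S : Finset (Fin n)) : ℕ :=
  (univ.filter fun e : Sym2 (Fin n) => e ∈ G.edgeSet ∧ ∀ u ∈ e, u ∈ S).card

open Classical in
/-- the number of edges of `G` -/
def eAll {n : ℕ} (G : SimpleGraph (Fin n)) : ℕ :=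
  (univ.filter fun e : Sym2 (Fin n) => e ∈ G.edgeSet).card

/-- Task A: the i-th largest of finitely many continuous functions is continuous. -/
def T_A : Prop := ∀ (ι : Type) [DecidableEq ι] (S : Finset ι) (v : ι → ℝ → ℝ),
  (∀ a ∈ S, Continuous (v a)) → ∀ i : ℕ, 1 ≤ i → i ≤ S.card →
    ∃ α : ℝ → ℝ, Continuous α ∧
      (∀ t c, c < α t ↔ i ≤ (S.filter fun a => c < v a t).card) ∧
      (∀ t c, c ≤ α t ↔ i ≤ (S.filter fun a => c ≤ v a t).card)

/-- Task HS: two finite sets separated by a line can be cut simultaneously in prescribed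
ratios by another line. -/
def T_HS : Prop := ∀ (n : ℕ) (p : Fin n → ℝ × ℝ), NoThree p →
  ∀ (A B : Finset (Fin n)) (a b c : ℝ), (a ≠ 0 ∨ b ≠ 0) →
    (∀ u ∈ A, aff a b c (p u) < 0) → (∀ u ∈ B, 0 < aff a b c (p u)) →
    ∀ i j : ℕ, 1 ≤ i → i < A.card → 1 ≤ j → j < B.card →
      ∃ a' b' c' : ℝ, Avoids p a' b' c' ∧
        (A.filter fun u => 0 < aff a' b' c' (p u)).card = i ∧
        (B.filter fun u => 0 < aff a' b' c' (p u)).card = j

/-- Task C1: the first cut. -/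
def T_C1 : Prop := ∀ (n : ℕ) (p : Fin n → ℝ × ℝ), Function.Injective p →
  ∀ i : ℕ, i ≤ n → ∃ a b c : ℝ, Avoids p a b c ∧
    (univ.filter fun u => aff a b c (p u) < 0).card = i

/-- Task E: counting edges when a line cuts two disjoint sets. -/
def T_E : Prop := ∀ (n : ℕ) (p : Fin n → ℝ × ℝ) (G : SimpleGraph (Fin n)) (a b c : ℝ),
  Avoids p a b c → ∀ A B : Finset (Fin n), Disjoint A B →
    eIn G A + eIn G B ≤
      (eIn G (A.filter fun u => 0 < aff a b c (p u)) +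
        eIn G (B.filter fun u => 0 < aff a b c (p u))) +
      (eIn G (A.filter fun u => aff a b c (p u) < 0) +
        eIn G (B.filter fun u => aff a b c (p u) < 0)) + (sepE p G a b c).card

/-- Task E0: trivial counting facts. -/
def T_E0 : Prop := ∀ (n : ℕ) (p : Fin n → ℝ × ℝ) (G : SimpleGraph (Fin n)),
  (∀ S : Finset (Fin n), eIn G S ≤ S.card.choose 2) ∧
  (∀ a b c : ℝ, Avoids p a b c →
    eAll G ≤ eIn G (univ.filter fun u => aff a b c (p u) < 0) +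
      eIn G (univ.filter fun u => 0 < aff a b c (p u)) + (sepE p G a b c).card)

/-- Task R: the recursion. -/
def T_R : Prop := T_HS → T_E → T_E0 → ∀ (n : ℕ) (p : Fin n → ℝ × ℝ), NoThree p →
  ∀ (G : SimpleGraph (Fin n)) (M : ℕ), (∀ a b c, Avoids p a b c → (sepE p G a b c).card ≤ M) →
  ∀ (a b c : ℝ), (a ≠ 0 ∨ b ≠ 0) →
  ∀ (la lb : List ℕ), la.length = lb.length → la ≠ [] → (∀ x ∈ la, 1 ≤ x) → (∀ x ∈ lb, 1 ≤ x) →
  ∀ (A B : Finset (Fin n)), (∀ u ∈ A, aff a b c (p u) < 0) → (∀ u ∈ B, 0 < aff a b c (p u)) →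
    A.card = la.sum → B.card = lb.sum →
    eIn G A + eIn G B ≤ (la.map fun x => x.choose 2).sum + (lb.map fun x => x.choose 2).sum +
      (la.length - 1) * M

/-- Task M: the main inequality (`2t` nearly equal pieces, `t` lines). -/
def T_M : Prop := T_R → T_HS → T_C1 → T_E → T_E0 →
  ∀ (n : ℕ) (p : Fin n → ℝ × ℝ), NoThree p →
  ∀ (G : SimpleGraph (Fin n)) (M : ℕ), (∀ a b c, Avoids p a b c → (sepE p G a b c).card ≤ M) →
  ∀ t q r : ℕ, 1 ≤ t → 1 ≤ q → r < 2 * t → n = 2 * t * q + r →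
    2 * eAll G ≤ 2 * t * (q * (q - 1)) + 2 * r * q + 2 * t * M

/-- Task N1: arithmetic for `k ^ 3 ≤ n ^ 2`. -/
def T_N1 : Prop := ∀ n k : ℕ, 1 ≤ k → 2 * k + 2 ≤ n → k ^ 3 ≤ n ^ 2 →
  ∃ t q r : ℕ, 1 ≤ t ∧ 1 ≤ q ∧ r < 2 * t ∧ n = 2 * t * q + r ∧
    2 * t * (q * (q - 1)) + 2 * r * q + 2 * t * (k ^ 2 - 1) ≤ 2 * (n * k)

/-- Task N2: arithmetic for `k ≤ 9`. -/
def T_N2 : Prop := ∀ n k : ℕ, 1 ≤ k → k ≤ 9 → 2 * k + 2 ≤ n → n ^ 2 < k ^ 3 →
  ∃ t q r : ℕ, 1 ≤ t ∧ 1 ≤ q ∧ r < 2 * t ∧ n = 2 * t * q + r ∧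
    2 * t * (q * (q - 1)) + 2 * r * q + 2 * t * (k ^ 2 - 1) ≤ 2 * (n * k)

/-- Task N3: arithmetic for the constant 8/9. -/
def T_N3 : Prop := ∀ n k X : ℕ, 1 ≤ k → 2 * k + 2 ≤ n →
  (∀ t q r : ℕ, 1 ≤ t → 1 ≤ q → r < 2 * t → n = 2 * t * q + r →
    2 * (n * k) < 2 * t * (q * (q - 1)) + 2 * r * q + 2 * t * X) →
  8 * k ^ 2 ≤ 9 * X

/-- Task G: from collinearity to `NoThree`. -/
def T_G : Prop := ∀ (n : ℕ) (p : Fin n → ℝ × ℝ), Function.Injective p →
  (∀ i j k : Fin n, i ≠ j → j ≠ k → i ≠ k → ¬ Collinear ℝ {p i, p j, p k}) → NoThree p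

end H162R2.LC
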